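import Mathlib

set_option autoImplicit false

open scoped Pointwise

/-!
# The necessary conditions for semisparse subgroups are sufficient
-/

namespace Pool.Agent.Results.MP_bc764a_al.Sufficient

/-- The subgroup generated by the `ρ i` with `i ∈ I`. -/
def gen {G : Type} [Group G] {n : ℕ} (ρ : Fin n → G) (I : Set (Fin n)) : Subgroup G :=
  Subgroup.closure (ρ '' I)

/-- `ρ` is the sequence of distinguished generators of a string C-group. -/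
structure IsStringC {G : Type} [Group G] {n : ℕ} (ρ : Fin n → G) : Prop where
  two_le : 2 ≤ n
  generate : gen ρ Set.univ = ⊤
  involution : ∀ i, ρ i ≠ 1 ∧ ρ i ^ 2 = 1
  string : ∀ i j : Fin n, (i : ℕ) + 2 ≤ j → (ρ i * ρ j) ^ 2 = 1
  inter : ∀ I J : Set (Fin n), gen ρ I ⊓ gen ρ J = gen ρ (I ∩ J)

/-- `conj S φ = φ⁻¹ S φ`. -/
def conj {G : Type} [Group G] (S : Subgroup G) (φ : G) : Subgroup G :=
  S.map (MulAut.conj φ⁻¹).toMonoidHom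

/-- The subgroup `S` is semisparse with respect to the generators `ρ`. -/
structure Semisparse {G : Type} [Group G] {n : ℕ} (ρ : Fin n → G) (S : Subgroup G) : Prop where
  cond1 : ∀ (φ : G) (i : Fin n),
    (conj S φ : Set G) ∩ ((gen ρ {l | l ≠ i} : Set G) * {ρ i}) = ∅
  cond2 : ∀ (φ : G) (i k j : Fin n), i < k → k < j →
    (gen ρ {l | i < l} : Set G) ∩ ((gen ρ {l | l < j} : Set G) * (conj S φ : Set G)) ⊆
      (gen ρ {l | l ≠ k} : Set G) *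
        ((gen ρ {l | i < l} : Set G) ∩ (gen ρ {l | l < j} : Set G)) * (conj S φ : Set G)
  cond3 : ∀ i j : Fin n, (i : ℕ) + 1 = j →
    (gen ρ {l | i < l} : Set G) ∩ ((gen ρ {l | l < j} : Set G) * (S : Set G)) ⊆ (S : Set G)

/-- The generators `ρ_1, …, ρ_{n-1}` of `Γ_0`, re-indexed from `0`. -/
def upper {G : Type} [Group G] {m : ℕ} (ρ : Fin (m + 1) → G) (i : Fin m) :
    gen ρ {l | l ≠ 0} :=
  ⟨ρ i.succ, Subgroup.subset_closure ⟨_, Fin.succ_ne_zero i, rfl⟩⟩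

/-- The generators `ρ_0, …, ρ_{n-2}` of `Γ_{n-1}`. -/
def lower {G : Type} [Group G] {m : ℕ} (ρ : Fin (m + 1) → G) (i : Fin m) :
    gen ρ {l | l ≠ Fin.last m} :=
  ⟨ρ i.castSucc, Subgroup.subset_closure ⟨_, (Fin.castSucc_lt_last i).ne, rfl⟩⟩

section basic

variable {G : Type} [Group G]

lemma mem_conj (S : Subgroup G) (φ x : G) : x ∈ conj S φ ↔ φ * x * φ⁻¹ ∈ S := by
  rw [conj, Subgroup.mem_map]
  constructor
  · rintro ⟨y, hy, rfl⟩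
    have : φ * ((MulAut.conj φ⁻¹).toMonoidHom y) * φ⁻¹ = y := by
      show φ * (φ⁻¹ * y * (φ⁻¹)⁻¹) * φ⁻¹ = y
      group
    rw [this]; exact hy
  · intro h
    refine ⟨_, h, ?_⟩
    show φ⁻¹ * (φ * x * φ⁻¹) * (φ⁻¹)⁻¹ = x
    group

lemma conj_conj (S : Subgroup G) (φ ψ : G) : conj (conj S φ) ψ = conj S (φ * ψ) := by
  ext x
  rw [mem_conj, mem_conj, mem_conj]
  have : φ * (ψ * x * ψ⁻¹) * φ⁻¹ = φ * ψ * x * (φ * ψ)⁻¹ := by group
  rw [this]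

lemma gen_mono {n : ℕ} (ρ : Fin n → G) {I J : Set (Fin n)} (h : I ⊆ J) : gen ρ I ≤ gen ρ J :=
  Subgroup.closure_mono (Set.image_mono h)

lemma gen_commute {n : ℕ} {ρ : Fin n → G} {I J : Set (Fin n)}
    (h : ∀ i ∈ I, ∀ j ∈ J, Commute (ρ i) (ρ j)) {x y : G} (hx : x ∈ gen ρ I)
    (hy : y ∈ gen ρ J) : Commute x y := by
  have h1 : gen ρ I ≤ Subgroup.centralizer (gen ρ J) := by
    rw [gen, Subgroup.closure_le]
    rintro _ ⟨i, hi, rfl⟩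
    rw [SetLike.mem_coe, gen, Subgroup.centralizer_closure, Subgroup.mem_centralizer_iff]
    rintro _ ⟨j, hj, rfl⟩
    exact (h i hi j hj).symm.eq
  exact (Subgroup.mem_centralizer_iff.1 (h1 hx) y hy).symm

variable {n : ℕ} {ρ : Fin n → G} (hc : ∀ i j : Fin n, (i : ℕ) + 2 ≤ j → Commute (ρ i) (ρ j))

include hc

lemma split (k : Fin n) {x : G} (hx : x ∈ gen ρ {l | l ≠ k}) :
    ∃ g₁ ∈ gen ρ {l | l < k}, ∃ g₂ ∈ gen ρ {l | k < l}, x = g₁ * g₂ := by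
  have hcom : ∀ {a b : G}, a ∈ gen ρ {l | l < k} → b ∈ gen ρ {l | k < l} → Commute a b := by
    intro a b ha hb
    refine gen_commute (fun i hi j hj => hc i j ?_) ha hb
    have h1 : (i : ℕ) < k := hi
    have h2 : (k : ℕ) < j := hj
    omega
  rw [gen] at hx
  induction hx using Subgroup.closure_induction with
  | mem y hy =>
    obtain ⟨l, hl, rfl⟩ := hy
    rcases lt_or_gt_of_ne (show l ≠ k from hl) with h | h
    · exact ⟨ρ l, Subgroup.subset_closure ⟨l, h, rfl⟩, 1, one_mem _, by rw [mul_one]⟩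
    · exact ⟨1, one_mem _, ρ l, Subgroup.subset_closure ⟨l, h, rfl⟩, by rw [one_mul]⟩
  | one => exact ⟨1, one_mem _, 1, one_mem _, by rw [mul_one]⟩
  | mul a b _ _ ha hb =>
    obtain ⟨a₁, ha₁, a₂, ha₂, rfl⟩ := ha
    obtain ⟨b₁, hb₁, b₂, hb₂, rfl⟩ := hb
    refine ⟨a₁ * b₁, mul_mem ha₁ hb₁, a₂ * b₂, mul_mem ha₂ hb₂, ?_⟩
    have := (hcom hb₁ ha₂).eq
    calc a₁ * a₂ * (b₁ * b₂) = a₁ * (a₂ * b₁) * b₂ := by group
      _ = a₁ * (b₁ * a₂) * b₂ := by rw [this]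
      _ = _ := by group
  | inv a _ ha =>
    obtain ⟨a₁, ha₁, a₂, ha₂, rfl⟩ := ha
    refine ⟨a₁⁻¹, inv_mem ha₁, a₂⁻¹, inv_mem ha₂, ?_⟩
    rw [mul_inv_rev]
    exact (hcom (inv_mem ha₁) (inv_mem ha₂)).symm.eq

/-- Conditions (2) and (3) for a conjugation invariant family of subgroups give the
intersection statement `Γ_{>i} Ψ ∩ Γ_{<j} Ψ = (Γ_{>i} ∩ Γ_{<j}) Ψ`. -/
lemma inter_of_family {ι : Type} (F : ι → Subgroup G)
    (hF : ∀ (a : ι) (g : G), ∃ b, F b = conj (F a) g)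
    (h2 : ∀ (a : ι) (i k j : Fin n), i < k → k < j →
      (gen ρ {l | i < l} : Set G) ∩ ((gen ρ {l | l < j} : Set G) * (F a : Set G)) ⊆
      (gen ρ {l | l ≠ k} : Set G) *
        ((gen ρ {l | i < l} : Set G) ∩ (gen ρ {l | l < j} : Set G)) * (F a : Set G))
    (h3 : ∀ (a : ι) (i j : Fin n), (i : ℕ) + 1 = j →
      (gen ρ {l | i < l} : Set G) ∩ ((gen ρ {l | l < j} : Set G) * (F a : Set G)) ⊆
        (F a : Set G)) (d : ℕ) :
    ∀ (i j : Fin n), (j : ℕ) = i + d + 1 → ∀ (a : ι) (x h ψ : G), x ∈ gen ρ {l | i < l} →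
      h ∈ gen ρ {l | l < j} → ψ ∈ F a → x = h * ψ →
      ∃ c ∈ gen ρ {l | i < l}, c ∈ gen ρ {l | l < j} ∧ ∃ ψ' ∈ F a, x = c * ψ' := by
  induction d with
  | zero =>
    intro i j hij a x h ψ hx hh hψ hxe
    have : x ∈ F a := h3 a i j (by omega) ⟨hx, h, hh, ψ, hψ, hxe.symm⟩
    exact ⟨1, one_mem _, one_mem _, x, this, by rw [one_mul]⟩
  | succ d ih =>
    intro i j hij a x h ψ hx hh hψ hxe
    let k : Fin n := ⟨i + 1, by omega⟩
    have hik : i < k := by rw [Fin.lt_def]; show (i : ℕ) < i + 1; omega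
    have hkj : k < j := by rw [Fin.lt_def]; show (i : ℕ) + 1 < j; omega
    obtain ⟨_, ⟨g, hg, c, ⟨hc1, hc2⟩, rfl⟩, ψ₁, hψ₁, hx1⟩ :=
      h2 a i k j hik hkj ⟨hx, h, hh, ψ, hψ, hxe.symm⟩
    obtain ⟨g₁, hg₁, g₂, hg₂, rfl⟩ := split hc k hg
    have hx1' : g₁ * g₂ * c * ψ₁ = x := hx1
    have hg₂' : g₂ ∈ gen ρ {l | i < l} := gen_mono ρ (fun l hl => hik.trans hl) hg₂
    have hy : g₂ * c ∈ gen ρ {l | i < l} := mul_mem hg₂' hc1
    -- first use of (3)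
    obtain ⟨b, hb⟩ := hF a (g₂ * c)⁻¹
    have hb1 : x * (g₂ * c)⁻¹ ∈ F b := by
      refine h3 b i k rfl ⟨mul_mem hx (inv_mem hy), g₁, hg₁, (g₂ * c) * ψ₁ * (g₂ * c)⁻¹, ?_, ?_⟩
      · rw [hb, SetLike.mem_coe, mem_conj]
        have : (g₂ * c)⁻¹ * (g₂ * c * ψ₁ * (g₂ * c)⁻¹) * ((g₂ * c)⁻¹)⁻¹ = ψ₁ := by group
        rw [this]; exact hψ₁
      · show g₁ * (g₂ * c * ψ₁ * (g₂ * c)⁻¹) = x * (g₂ * c)⁻¹
        rw [← hx1']; group
    rw [hb, mem_conj] at hb1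
    have e1 : (g₂ * c)⁻¹ * (x * (g₂ * c)⁻¹) * ((g₂ * c)⁻¹)⁻¹ = (g₂ * c)⁻¹ * x := by group
    rw [e1] at hb1
    -- now `x = g₂ c ψ'`
    obtain ⟨b', hb'⟩ := hF a c⁻¹
    have hm : h * c⁻¹ ∈ gen ρ {l | l < j} := mul_mem hh (inv_mem hc2)
    have hm2 : c * (ψ * ((g₂ * c)⁻¹ * x)⁻¹) * c⁻¹ ∈ F b' := by
      rw [hb', mem_conj]
      have : c⁻¹ * (c * (ψ * ((g₂ * c)⁻¹ * x)⁻¹) * c⁻¹) * (c⁻¹)⁻¹ =
        ψ * ((g₂ * c)⁻¹ * x)⁻¹ := by group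
      rw [this]
      exact mul_mem hψ (inv_mem hb1)
    have hg₂e : g₂ = h * c⁻¹ * (c * (ψ * ((g₂ * c)⁻¹ * x)⁻¹) * c⁻¹) := by
      rw [hxe]; group
    obtain ⟨d', hd1, hd2, ψ₃, hψ₃, hg₂f⟩ := ih k j (by show (j : ℕ) = i + 1 + d + 1; omega) b' g₂
      (h * c⁻¹) _ hg₂ hm hm2 hg₂e
    rw [hb', mem_conj, inv_inv] at hψ₃
    refine ⟨d' * c, mul_mem (gen_mono ρ (fun l hl => hik.trans hl) hd1) hc1, mul_mem hd2 hc2,
      (c⁻¹ * ψ₃ * c) * ((g₂ * c)⁻¹ * x), mul_mem hψ₃ hb1, ?_⟩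
    have e2 : x = g₂ * (c * ((g₂ * c)⁻¹ * x)) := by group
    have e3 : d' * c * (c⁻¹ * ψ₃ * c * ((g₂ * c)⁻¹ * x)) =
        d' * ψ₃ * (c * ((g₂ * c)⁻¹ * x)) := by group
    rw [e3, ← hg₂f]
    exact e2

end basic

section main

variable {Γ : Type} [Group Γ] {m : ℕ} {ρ : Fin (m + 1) → Γ}

lemma map_upper (I : Set (Fin m)) :
    (gen (upper ρ) I).map (gen ρ {l | l ≠ 0}).subtype = gen ρ (Fin.succ '' I) := by
  show (Subgroup.closure (upper ρ '' I)).map _ = Subgroup.closure (ρ '' (Fin.succ '' I))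
  rw [MonoidHom.map_closure, Set.image_image, Set.image_image]
  rfl

lemma map_lower (I : Set (Fin m)) :
    (gen (lower ρ) I).map (gen ρ {l | l ≠ Fin.last m}).subtype =
      gen ρ (Fin.castSucc '' I) := by
  show (Subgroup.closure (lower ρ '' I)).map _ = Subgroup.closure (ρ '' (Fin.castSucc '' I))
  rw [MonoidHom.map_closure, Set.image_image, Set.image_image]
  rfl

lemma mem_upper (I : Set (Fin m)) (x : gen ρ {l | l ≠ 0}) :
    x ∈ gen (upper ρ) I ↔ (x : Γ) ∈ gen ρ (Fin.succ '' I) := by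
  rw [← map_upper, Subgroup.mem_map]
  constructor
  · intro h; exact ⟨x, h, rfl⟩
  · rintro ⟨y, hy, h⟩
    have : y = x := Subtype.ext h
    rw [← this]; exact hy

lemma mem_lower (I : Set (Fin m)) (x : gen ρ {l | l ≠ Fin.last m}) :
    x ∈ gen (lower ρ) I ↔ (x : Γ) ∈ gen ρ (Fin.castSucc '' I) := by
  rw [← map_lower, Subgroup.mem_map]
  constructor
  · intro h; exact ⟨x, h, rfl⟩
  · rintro ⟨y, hy, h⟩
    have : y = x := Subtype.ext h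
    rw [← this]; exact hy

lemma conj_subgroupOf (S H : Subgroup Γ) (φ : Γ) (g : H) :
    (conj S (φ * g)).subgroupOf H = conj ((conj S φ).subgroupOf H) g := by
  ext x
  rw [mem_conj, Subgroup.mem_subgroupOf, Subgroup.mem_subgroupOf, mem_conj, mem_conj]
  have : φ * ↑g * ↑x * (φ * ↑g)⁻¹ = φ * (↑(g * x * g⁻¹) : Γ) * φ⁻¹ := by
    push_cast; group
  rw [this]

lemma conj_one {G : Type} [Group G] (S : Subgroup G) : conj S 1 = S := by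
  ext x; rw [mem_conj]; simp

lemma comm_of_string (hρ : IsStringC ρ) (i j : Fin (m + 1)) (h : (i : ℕ) + 2 ≤ j) :
    Commute (ρ i) (ρ j) := by
  have h1 := hρ.string i j h
  have h2 : ρ i * ρ i = 1 := by have := (hρ.involution i).2; rwa [pow_two] at this
  have h3 : ρ j * ρ j = 1 := by have := (hρ.involution j).2; rwa [pow_two] at this
  rw [pow_two] at h1
  calc ρ i * ρ j = (ρ i * ρ j * (ρ i * ρ j)) * (ρ i * ρ j)⁻¹ := by group
    _ = (ρ i * ρ j)⁻¹ := by rw [h1, one_mul]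
    _ = (ρ j)⁻¹ * (ρ i)⁻¹ := by rw [mul_inv_rev]
    _ = ρ j * ρ i := by rw [inv_eq_of_mul_eq_one_left h2, inv_eq_of_mul_eq_one_left h3]

section hyp

variable (hρ : IsStringC ρ) (S : Subgroup Γ)
  (h0 : ∀ φ, Semisparse (upper ρ) ((conj S φ).subgroupOf (gen ρ {l | l ≠ 0})))
  (h1 : ∀ φ, Semisparse (lower ρ) ((conj S φ).subgroupOf (gen ρ {l | l ≠ Fin.last m})))

include hρ h0 in
lemma P0 (φ : Γ) (i : Fin (m + 1)) (hi0 : 0 < i) (hi1 : i < Fin.last m) (x y ψ : Γ)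
    (hx : x ∈ gen ρ {l | i < l}) (hy : y ∈ gen ρ ({l | l ≠ 0} ∩ {l | l ≠ Fin.last m}))
    (hψ : ψ ∈ conj S φ) (hψ0 : ψ ∈ gen ρ {l | l ≠ 0}) (hxe : x = y * ψ) :
    ∃ c ∈ gen ρ ({l | i < l} ∩ {l | l ≠ Fin.last m}), ∃ ψ' ∈ conj S φ,
      ψ' ∈ gen ρ {l | l ≠ 0} ∧ x = c * ψ' := by
  have hi0' : 0 < (i : ℕ) := hi0
  have hi1' : (i : ℕ) < m := hi1
  have hcs : ∀ i j : Fin m, (i : ℕ) + 2 ≤ j → Commute (upper ρ i) (upper ρ j) := by
    intro i j hij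
    have := comm_of_string hρ i.succ j.succ (by simp; omega)
    exact Subtype.ext this.eq
  have hx0 : x ∈ gen ρ {l | l ≠ 0} := gen_mono ρ (fun l hl => (hi0.trans hl).ne') hx
  have hy0 : y ∈ gen ρ {l | l ≠ 0} := gen_mono ρ Set.inter_subset_left hy
  obtain ⟨c, hc1, hc2, ψ', hψ', hxc⟩ := inter_of_family (ρ := upper ρ) hcs
    (fun φ : Γ => (conj S φ).subgroupOf (gen ρ {l | l ≠ 0}))
    (fun φ g => ⟨φ * g, conj_subgroupOf S _ φ g⟩)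
    (fun φ i k j hik hkj => by
      have := (h0 φ).cond2 1 i k j hik hkj
      rw [conj_one] at this; exact this)
    (fun φ i j hij => (h0 φ).cond3 i j hij) (m - 1 - i)
    ⟨i - 1, by omega⟩ ⟨m - 1, by omega⟩ (by simp; omega) φ ⟨x, hx0⟩ ⟨y, hy0⟩ ⟨ψ, hψ0⟩
    (by
      rw [mem_upper]
      refine gen_mono ρ ?_ hx
      intro l hl
      have hl' : (i : ℕ) < l := hl
      refine ⟨⟨l - 1, by omega⟩, ?_, ?_⟩
      · show (i : ℕ) - 1 < l - 1; omega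
      · ext; simp; omega)
    (by
      rw [mem_upper]
      refine gen_mono ρ ?_ hy
      rintro l ⟨hl1, hl2⟩
      have hl1' : (l : ℕ) ≠ 0 := fun h => hl1 (Fin.ext h)
      have hl2' : (l : ℕ) ≠ m := fun h => hl2 (Fin.ext h)
      refine ⟨⟨l - 1, by omega⟩, ?_, ?_⟩
      · show (l : ℕ) - 1 < m - 1; omega
      · ext; simp; omega)
    (by rw [Subgroup.mem_subgroupOf]; exact hψ)
    (by apply Subtype.ext; exact hxe)
  rw [mem_upper] at hc1 hc2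
  have hc3 : (c : Γ) ∈ gen ρ _ ⊓ gen ρ _ := ⟨hc1, hc2⟩
  rw [hρ.inter] at hc3
  refine ⟨c, gen_mono ρ ?_ hc3, ψ', hψ', ψ'.2, congrArg Subtype.val hxc⟩
  rintro l ⟨⟨a, ha, rfl⟩, ⟨b, hb, hab⟩⟩
  have ha' : (i : ℕ) - 1 < a := ha
  have hb' : (b : ℕ) < m - 1 := hb
  have hab' : b = a := Fin.succ_injective _ hab
  subst hab'
  constructor
  · show (i : ℕ) < (b.succ : Fin (m + 1))
    rw [Fin.val_succ]; omega
  · intro h
    have := congrArg Fin.val h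
    simp at this; omega

include hρ h1 in
lemma P1 (φ : Γ) (i j : Fin (m + 1)) (hij : i < j) (hj : j < Fin.last m) (x h ψ : Γ)
    (hx : x ∈ gen ρ ({l | i < l} ∩ {l | l ≠ Fin.last m})) (hh : h ∈ gen ρ {l | l < j})
    (hψ : ψ ∈ conj S φ) (hψ0 : ψ ∈ gen ρ {l | l ≠ Fin.last m}) (hxe : x = h * ψ) :
    ∃ c ∈ gen ρ {l | i < l}, c ∈ gen ρ {l | l < j} ∧ ∃ ψ' ∈ conj S φ, x = c * ψ' := by
  have hij' : (i : ℕ) < j := hij
  have hj' : (j : ℕ) < m := hj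
  have hcs : ∀ i j : Fin m, (i : ℕ) + 2 ≤ j → Commute (lower ρ i) (lower ρ j) := by
    intro i j hij
    have := comm_of_string hρ i.castSucc j.castSucc (by simp; omega)
    exact Subtype.ext this.eq
  have hx0 : x ∈ gen ρ {l | l ≠ Fin.last m} := gen_mono ρ Set.inter_subset_right hx
  have hh0 : h ∈ gen ρ {l | l ≠ Fin.last m} :=
    gen_mono ρ (fun l (hl : l < j) => (hl.trans hj).ne) hh
  obtain ⟨c, hc1, hc2, ψ', hψ', hxc⟩ := inter_of_family (ρ := lower ρ) hcs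
    (fun φ : Γ => (conj S φ).subgroupOf (gen ρ {l | l ≠ Fin.last m}))
    (fun φ g => ⟨φ * g, conj_subgroupOf S _ φ g⟩)
    (fun φ i k j hik hkj => by
      have := (h1 φ).cond2 1 i k j hik hkj
      rw [conj_one] at this; exact this)
    (fun φ i j hij => (h1 φ).cond3 i j hij) (j - i - 1)
    ⟨i, by omega⟩ ⟨j, by omega⟩ (by simp; omega) φ ⟨x, hx0⟩ ⟨h, hh0⟩ ⟨ψ, hψ0⟩
    (by
      rw [mem_lower]
      refine gen_mono ρ ?_ hx
      rintro l ⟨hl1, hl2⟩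
      have hl1' : (i : ℕ) < l := hl1
      have hl2' : (l : ℕ) ≠ m := fun h => hl2 (Fin.ext h)
      exact ⟨⟨l, by omega⟩, hl1', rfl⟩)
    (by
      rw [mem_lower]
      refine gen_mono ρ ?_ hh
      intro l hl
      have hl' : (l : ℕ) < j := hl
      exact ⟨⟨l, by omega⟩, hl', rfl⟩)
    (by rw [Subgroup.mem_subgroupOf]; exact hψ)
    (by apply Subtype.ext; exact hxe)
  rw [mem_lower] at hc1 hc2
  refine ⟨c, gen_mono ρ ?_ hc1, gen_mono ρ ?_ hc2, ψ', hψ', congrArg Subtype.val hxc⟩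
  · rintro _ ⟨a, ha, rfl⟩
    exact ha
  · rintro _ ⟨a, ha, rfl⟩
    exact ha

include h1 in
lemma no1 (φ : Γ) (i : Fin (m + 1)) (hi : i < Fin.last m) (g : Γ)
    (hg : g ∈ gen ρ ({l | l ≠ i} ∩ {l | l ≠ Fin.last m})) : g * ρ i ∉ conj S φ := by
  intro hm
  have hi' : (i : ℕ) < m := hi
  have hg0 : g ∈ gen ρ {l | l ≠ Fin.last m} := gen_mono ρ Set.inter_subset_right hg
  have key := (h1 φ).cond1 1 ⟨i, hi'⟩
  rw [conj_one] at key
  have : (⟨g, hg0⟩ * lower ρ ⟨i, hi'⟩ : gen ρ {l | l ≠ Fin.last m}) ∈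
      (((conj S φ).subgroupOf (gen ρ {l | l ≠ Fin.last m}) : Subgroup _) : Set _) ∩
      ((gen (lower ρ) {l | l ≠ ⟨i, hi'⟩} : Set _) * {lower ρ ⟨i, hi'⟩}) := by
    constructor
    · rw [SetLike.mem_coe, Subgroup.mem_subgroupOf]
      exact hm
    · refine ⟨⟨g, hg0⟩, ?_, _, rfl, rfl⟩
      rw [SetLike.mem_coe, mem_lower]
      refine gen_mono ρ ?_ hg
      rintro l ⟨hl1, hl2⟩
      have hl2' : (l : ℕ) ≠ m := fun h => hl2 (Fin.ext h)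
      refine ⟨⟨l, by omega⟩, ?_, rfl⟩
      intro h
      have h' : (l : ℕ) = i := by
        have := Fin.mk.inj_iff.1 h
        exact this
      exact hl1 (Fin.ext h')
  rw [key] at this
  exact this

include h0 in
lemma no0 (φ : Γ) (i : Fin (m + 1)) (hi : 0 < i) (g : Γ)
    (hg : g ∈ gen ρ ({l | l ≠ i} ∩ {l | l ≠ 0})) : g * ρ i ∉ conj S φ := by
  intro hm
  have hi' : 0 < (i : ℕ) := hi
  have hi2 : (i : ℕ) - 1 < m := by omega
  have hg0 : g ∈ gen ρ {l | l ≠ 0} := gen_mono ρ Set.inter_subset_right hg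
  have key := (h0 φ).cond1 1 ⟨i - 1, hi2⟩
  rw [conj_one] at key
  have hsu : (⟨i - 1, hi2⟩ : Fin m).succ = i := by ext; simp; omega
  have hup : ((upper ρ ⟨i - 1, hi2⟩ : gen ρ {l | l ≠ 0}) : Γ) = ρ i := by
    show ρ (⟨i - 1, hi2⟩ : Fin m).succ = ρ i
    rw [hsu]
  have : (⟨g, hg0⟩ * upper ρ ⟨i - 1, hi2⟩ : gen ρ {l | l ≠ 0}) ∈
      (((conj S φ).subgroupOf (gen ρ {l | l ≠ 0}) : Subgroup _) : Set _) ∩
      ((gen (upper ρ) {l | l ≠ ⟨i - 1, hi2⟩} : Set _) * {upper ρ ⟨i - 1, hi2⟩}) := by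
    constructor
    · rw [SetLike.mem_coe, Subgroup.mem_subgroupOf, Subgroup.coe_mul, hup]
      exact hm
    · refine ⟨⟨g, hg0⟩, ?_, _, rfl, rfl⟩
      rw [SetLike.mem_coe, mem_upper]
      refine gen_mono ρ ?_ hg
      rintro l ⟨hl1, hl2⟩
      have hl2' : (l : ℕ) ≠ 0 := fun h => hl2 (Fin.ext h)
      refine ⟨⟨l - 1, by omega⟩, ?_, ?_⟩
      · intro h
        have h' := congrArg Fin.val h
        simp only at h'
        exact hl1 (Fin.ext (by omega))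
      · ext; simp; omega
  rw [key] at this
  exact this

variable (hstar : ∀ φ, (conj S φ : Set Γ) ∩
    ((gen ρ {l | l ≠ 0} : Set Γ) * (gen ρ {l | l ≠ Fin.last m} : Set Γ)) =
    ((conj S φ : Set Γ) ∩ (gen ρ {l | l ≠ 0} : Set Γ)) *
      ((conj S φ : Set Γ) ∩ (gen ρ {l | l ≠ Fin.last m} : Set Γ)))

include hstar hρ in
lemma star_use (φ a b : Γ) (ha : a ∈ gen ρ {l | l ≠ 0}) (hb : b ∈ gen ρ {l | l ≠ Fin.last m})
    (hab : a * b ∈ conj S φ) : ∃ ψ₀ ∈ conj S φ, ψ₀ ∈ gen ρ {l | l ≠ 0} ∧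
      ∃ ψ₁ ∈ conj S φ, ψ₁ ∈ gen ρ {l | l ≠ Fin.last m} ∧ a * b = ψ₀ * ψ₁ ∧
      ψ₀⁻¹ * a ∈ gen ρ ({l | l ≠ 0} ∩ {l | l ≠ Fin.last m}) := by
  have h := (hstar φ).subset ⟨hab, a, ha, b, hb, rfl⟩
  obtain ⟨ψ₀, ⟨h1, h2⟩, ψ₁, ⟨h3, h4⟩, h5⟩ := h
  have h5' : ψ₀ * ψ₁ = a * b := h5
  refine ⟨ψ₀, h1, h2, ψ₁, h3, h4, h5'.symm, ?_⟩
  rw [← hρ.inter]
  refine Subgroup.mem_inf.2 ⟨mul_mem (inv_mem h2) ha, ?_⟩
  have : ψ₀⁻¹ * a = ψ₁ * b⁻¹ := by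
    rw [inv_mul_eq_iff_eq_mul, ← mul_assoc, h5']; group
  rw [this]
  exact mul_mem h4 (inv_mem hb)

include hρ h0 h1 hstar in
lemma Pmain (φ : Γ) (i j : Fin (m + 1)) (hij : i < j) (x h ψ : Γ)
    (hx : x ∈ gen ρ {l | i < l}) (hh : h ∈ gen ρ {l | l < j}) (hψ : ψ ∈ conj S φ)
    (hxe : x = h * ψ) :
    ∃ c ∈ gen ρ {l | i < l}, c ∈ gen ρ {l | l < j} ∧ ∃ ψ' ∈ conj S φ, x = c * ψ' := by
  have hx0 : x ∈ gen ρ {l | l ≠ 0} :=
    gen_mono ρ (fun l (hl : i < l) => ((Fin.zero_le i).trans_lt hl).ne') hx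
  have hh1 : h ∈ gen ρ {l | l ≠ Fin.last m} :=
    gen_mono ρ (fun l (hl : l < j) => (hl.trans_le (Fin.le_last j)).ne) hh
  have hi1 : i < Fin.last m := hij.trans_le (Fin.le_last j)
  obtain ⟨ψ₀, a1, a2, ψ₁, a3, a4, a5, a6⟩ := star_use hρ S hstar φ x⁻¹ h (inv_mem hx0) hh1
    (by
      have : x⁻¹ * h = ψ⁻¹ := by rw [hxe]; group
      rw [this]; exact inv_mem hψ)
  -- `y = x ψ₀`
  have a7 : x * ψ₀ ∈ gen ρ ({l | l ≠ 0} ∩ {l | l ≠ Fin.last m}) := by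
    have : x * ψ₀ = (ψ₀⁻¹ * x⁻¹)⁻¹ := by group
    rw [this]; exact inv_mem a6
  obtain ⟨c, hc, ψ', hψ', hxc⟩ : ∃ c ∈ gen ρ ({l | i < l} ∩ {l | l ≠ Fin.last m}),
      ∃ ψ' ∈ conj S φ, x = c * ψ' := by
    rcases (Fin.zero_le i).lt_or_eq with hi0 | hi0
    · obtain ⟨c, hc, ψ', hψ', _, hxc⟩ := P0 hρ S h0 φ i hi0 hi1 x (x * ψ₀) ψ₀⁻¹ hx a7
        (inv_mem a1) (inv_mem a2) (by group)
      exact ⟨c, hc, ψ', hψ', hxc⟩
    · refine ⟨x * ψ₀, gen_mono ρ ?_ a7, ψ₀⁻¹, inv_mem a1, by group⟩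
      rintro l ⟨hl1, hl2⟩
      refine ⟨?_, hl2⟩
      rw [← hi0]
      exact Fin.pos_iff_ne_zero.2 hl1
  have hc1 : c ∈ gen ρ {l | i < l} := gen_mono ρ Set.inter_subset_left hc
  have hc2 : c ∈ gen ρ {l | l ≠ Fin.last m} := gen_mono ρ Set.inter_subset_right hc
  rcases (Fin.le_last j).lt_or_eq with hj | hj
  · have e1 : c = h * (ψ * ψ'⁻¹) := by
      have : c = x * ψ'⁻¹ := by rw [hxc]; group
      rw [this, hxe]; group
    have e2 : ψ * ψ'⁻¹ ∈ gen ρ {l | l ≠ Fin.last m} := by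
      have : ψ * ψ'⁻¹ = h⁻¹ * c := by rw [e1]; group
      rw [this]; exact mul_mem (inv_mem hh1) hc2
    obtain ⟨c', hc1', hc2', ψ'', hψ'', hcc⟩ := P1 hρ S h1 φ i j hij hj c h (ψ * ψ'⁻¹) hc hh
      (mul_mem hψ (inv_mem hψ')) e2 e1
    exact ⟨c', hc1', hc2', ψ'' * ψ', mul_mem hψ'' hψ', by rw [hxc, hcc, mul_assoc]⟩
  · refine ⟨c, hc1, gen_mono ρ ?_ hc, ψ', hψ', hxc⟩
    rintro l ⟨_, hl2⟩
    show l < j
    rw [hj]
    exact lt_of_le_of_ne (Fin.le_last l) hl2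

include hρ h0 h1 hstar in
lemma cond1_holds (φ : Γ) (i : Fin (m + 1)) (g : Γ) (hg : g ∈ gen ρ {l | l ≠ i}) :
    g * ρ i ∉ conj S φ := by
  intro hm
  have hm1 : 1 ≤ m := by have := hρ.two_le; omega
  have hρi : ∀ k, ρ k * ρ k = 1 := fun k => by
    have := (hρ.involution k).2; rwa [pow_two] at this
  rcases (Fin.le_last i).lt_or_eq with hi | hi
  · obtain ⟨g₁, hg₁, g₂, hg₂, hgg⟩ := split (comm_of_string hρ) i (inv_mem hg)
    have hg' : g = g₂⁻¹ * g₁⁻¹ := by rw [← mul_inv_rev, ← hgg, inv_inv]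
    have ha : g₂⁻¹ ∈ gen ρ {l | l ≠ 0} :=
      gen_mono ρ (fun l (hl : i < l) => ((Fin.zero_le i).trans_lt hl).ne') (inv_mem hg₂)
    have hb : g₁⁻¹ * ρ i ∈ gen ρ {l | l ≠ Fin.last m} :=
      mul_mem (gen_mono ρ (fun l (hl : l < i) => (hl.trans hi).ne) (inv_mem hg₁))
        (Subgroup.subset_closure ⟨i, hi.ne, rfl⟩)
    have hab : g₂⁻¹ * (g₁⁻¹ * ρ i) ∈ conj S φ := by
      rw [← mul_assoc, ← hg']; exact hm
    obtain ⟨ψ₀, a1, a2, ψ₁, a3, a4, a5, a6⟩ := star_use hρ S hstar φ _ _ ha hb hab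
    have e1 : ψ₁ = (ψ₀⁻¹ * g₂⁻¹) * g₁⁻¹ * ρ i := by
      calc ψ₁ = ψ₀⁻¹ * (ψ₀ * ψ₁) := by group
        _ = ψ₀⁻¹ * (g₂⁻¹ * (g₁⁻¹ * ρ i)) := by rw [← a5]
        _ = _ := by group
    rcases (Fin.zero_le i).lt_or_eq with hi0 | hi0
    · obtain ⟨c, hc, ψ', hψ', hψ'0, hxc⟩ := P0 hρ S h0 φ i hi0 hi g₂ ((ψ₀⁻¹ * g₂⁻¹)⁻¹) ψ₀⁻¹ hg₂
        (inv_mem a6) (inv_mem a1) (inv_mem a2) (by group)
      have e2 : ψ' * ψ₀ * ψ₁ = c⁻¹ * g₁⁻¹ * ρ i := by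
        rw [e1, hxc]; group
      refine no1 S h1 φ i hi (c⁻¹ * g₁⁻¹) ?_ ?_
      · refine mul_mem (gen_mono ρ ?_ (inv_mem hc)) (gen_mono ρ ?_ (inv_mem hg₁))
        · rintro l ⟨hl1, hl2⟩
          exact ⟨(show i < l from hl1).ne', hl2⟩
        · intro l hl
          exact ⟨(show l < i from hl).ne, ((show l < i from hl).trans hi).ne⟩
      · rw [← e2]
        exact mul_mem (mul_mem hψ' a1) a3
    · refine no1 S h1 φ i hi ((ψ₀⁻¹ * g₂⁻¹) * g₁⁻¹) ?_ ?_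
      · refine mul_mem (gen_mono ρ ?_ a6) (gen_mono ρ ?_ (inv_mem hg₁))
        · rintro l ⟨hl1, hl2⟩
          exact ⟨by rw [← hi0]; exact hl1, hl2⟩
        · intro l hl
          exact ⟨(show l < i from hl).ne, ((show l < i from hl).trans hi).ne⟩
      · rw [← e1]; exact a3
  · -- the last index
    have hlast0 : i ≠ 0 := by
      rw [hi]; intro h
      have := congrArg Fin.val h
      simp at this; omega
    have ha : (ρ i)⁻¹ ∈ gen ρ {l | l ≠ 0} := inv_mem (Subgroup.subset_closure ⟨i, hlast0, rfl⟩)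
    have hb : g⁻¹ ∈ gen ρ {l | l ≠ Fin.last m} := by rw [← hi]; exact inv_mem hg
    obtain ⟨ψ₀, a1, a2, ψ₁, a3, a4, a5, a6⟩ := star_use hρ S hstar φ _ _ ha hb (by
      rw [← mul_inv_rev]; exact inv_mem hm)
    refine no0 S h0 φ i (Fin.pos_iff_ne_zero.2 hlast0) (ψ₀⁻¹ * (ρ i)⁻¹) ?_ ?_
    · rw [hi] at a6 ⊢
      rw [Set.inter_comm]
      exact a6
    · have : ψ₀⁻¹ * (ρ i)⁻¹ * ρ i = ψ₀⁻¹ := by group
      rw [this]; exact inv_mem a1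

include hρ h0 h1 hstar in
/-- The conditions on `Γ_0`, `Γ_{n-1}` and `(*)` imply that `S` is semisparse. -/
theorem semisparse_of : Semisparse ρ S where
  cond1 φ i := by
    rw [Set.eq_empty_iff_forall_notMem]
    rintro x ⟨hx1, g, hg, r, hr, hgr⟩
    have hr' : r = ρ i := hr
    subst hr'
    have hgr' : g * ρ i = x := hgr
    apply cond1_holds hρ S h0 h1 hstar φ i g hg
    rw [hgr']; exact hx1
  cond2 φ i k j hik hkj := by
    rintro x ⟨hx1, h, hh, ψ, hψ, hx2⟩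
    obtain ⟨c, hc1, hc2, ψ', hψ', hxc⟩ := Pmain hρ S h0 h1 hstar φ i j (hik.trans hkj) x h ψ hx1 hh
      hψ (show x = h * ψ from hx2.symm)
    exact ⟨1 * c, ⟨1, one_mem _, c, ⟨hc1, hc2⟩, rfl⟩, ψ', hψ', by
      show 1 * c * ψ' = x
      rw [one_mul, hxc]⟩
  cond3 i j hij := by
    rintro x ⟨hx1, h, hh, ψ, hψ, hx2⟩
    have hij' : i < j := by rw [Fin.lt_def]; omega
    have hψ1 : ψ ∈ conj S 1 := by rw [conj_one]; exact hψ
    obtain ⟨c, hc1, hc2, ψ', hψ', hxc⟩ := Pmain hρ S h0 h1 hstar 1 i j hij' x h ψ hx1 hh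
      hψ1 (show x = h * ψ from hx2.symm)
    have hc : c ∈ gen ρ {l | i < l} ⊓ gen ρ {l | l < j} := Subgroup.mem_inf.2 ⟨hc1, hc2⟩
    rw [hρ.inter] at hc
    have he : {l | i < l} ∩ {l | l < j} = (∅ : Set (Fin (m + 1))) := by
      ext l
      simp only [Set.mem_inter_iff, Set.mem_ofPred_eq, Set.mem_empty_iff_false, iff_false, not_and]
      intro h3 h4
      rw [Fin.lt_def] at h3 h4
      omega
    rw [he, gen, Set.image_empty, Subgroup.closure_empty, Subgroup.mem_bot] at hc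
    rw [conj_one] at hψ'
    rw [hxc, hc, one_mul]; exact hψ'

end hyp

end main

/-- For every string C-group `Γ` of rank `m + 1 ≥ 2` and every subgroup `S`: if all
`S^φ ∩ Γ_0` are semisparse in `Γ_0`, all `S^φ ∩ Γ_m` are semisparse in `Γ_m` and `(*)` holds for
every `φ`, then `S` is semisparse in `Γ`. -/
theorem result {Γ : Type} [Group Γ] {m : ℕ} (ρ : Fin (m + 1) → Γ) (hρ : IsStringC ρ)
    (S : Subgroup Γ)
    (h0 : ∀ φ, Semisparse (upper ρ) ((conj S φ).subgroupOf (gen ρ {l | l ≠ 0})))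
    (h1 : ∀ φ, Semisparse (lower ρ) ((conj S φ).subgroupOf (gen ρ {l | l ≠ Fin.last m})))
    (hstar : ∀ φ, (conj S φ : Set Γ) ∩
      ((gen ρ {l | l ≠ 0} : Set Γ) * (gen ρ {l | l ≠ Fin.last m} : Set Γ)) =
      ((conj S φ : Set Γ) ∩ (gen ρ {l | l ≠ 0} : Set Γ)) *
        ((conj S φ : Set Γ) ∩ (gen ρ {l | l ≠ Fin.last m} : Set Γ))) :
    Semisparse ρ S :=
  semisparse_of hρ S h0 h1 hstar

end Pool.Agent.Results.MP_bc764a_al.Sufficient
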